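import Pool.Agent.Y940.HB.Main

/-!
# MP_12a1af_nt, Q1 and Q2: a near-counterexample

`rep A n` is the number `r_A(n)` of ordered pairs `(a, b) ∈ A × A` with `a + b = n`.

There is a set `A` of natural numbers such that

1. every `n ≥ 4096` is a sum of two elements of `A`;
2. `A` has at most `16 √x` elements up to `x`, for all `x ≥ 1` (equivalently `a_n ≥ c n ^ 2`: up to
   the constant `A` is as thin as an asymptotic basis of order 2 can be);
3. `r_A(n) ≤ C (log n) ^ 4` for all `n ≥ 2`;
4. `r_A(n) = 2` (one representation up to the order of the summands) for all `n ≤ x` with at most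
   `C x / log log x` exceptions.

So the set satisfies all the requirements of a counterexample to the Erdős–Turán conjecture with the
exception of a set of integers of density zero, and there `r_A(n)` is at most polylogarithmic.

Construction: `n` is written in blocks of base 4 digits, block `i` having `s_i = 2 l_i` digits, with
`l_i` tending to infinity slowly. One part of `A` uses the digits `0, 1`, the other part the digits
`0, 2`, but in block `i` the part with digits `0, 1` is translated by a number with digits `0, 2`
depending on all the lower digits (a hash value), and vice versa. A proper choice of the hash values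
(exponential moments, method of conditional expectations) makes all multiplicities small, and the
change from one block to the next one takes place at `l_i` different places depending on the lower
digits, so that it concerns at each scale only a proportion of `1 / l_i` of the integers.
-/

set_option autoImplicit false

open Finset

namespace Pool.Agent.Results.MP_12a1af_nt.NearCounterexample

/-- `r_A(n)`: the number of ordered pairs of elements of `A` with sum `n` -/
noncomputable def rep (A : Set ℕ) (n : ℕ) : ℕ :=
  {p : ℕ × ℕ | p.1 ∈ A ∧ p.2 ∈ A ∧ p.1 + p.2 = n}.ncard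

open scoped Classical in
/-- A thin asymptotic basis with `r_A(n) = 2` for almost all `n` and `r_A(n) ≤ C (log n) ^ 4` for all
`n`. -/
theorem result :
    ∃ A : Set ℕ, (∀ n ≥ 4096, 1 ≤ rep A n) ∧
      (∀ x : ℕ, 1 ≤ x → (((Icc 0 x).filter (fun a => a ∈ A)).card : ℝ) ≤ 16 * Real.sqrt x) ∧
      (∃ C : ℝ, ∀ n : ℕ, 2 ≤ n → (rep A n : ℝ) ≤ C * Real.log n ^ 4) ∧
      (∃ C : ℝ, ∀ x : ℕ, 16 ≤ x → (((Icc 1 x).filter (fun n => rep A n ≠ 2)).card : ℝ) ≤
        C * (x / Real.log (Real.log x))) := by
  obtain ⟨S⟩ := Pool.Agent.Y940.HB.sys_exists
  exact ⟨S.A, fun n hn => S.rep_pos_of_ge n hn, fun x hx => S.thin_sqrt x hx,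
    ⟨_, fun n hn => S.rep_le_log n hn⟩, S.exceptions⟩

end Pool.Agent.Results.MP_12a1af_nt.NearCounterexample
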