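import Pool.Agent.Y940.NP.Prob

/-!
# MP_12a1af_nt, Q2: the strong form holds almost surely after a small random perturbation

Let `A = {a_1 < a_2 < ...}` be any set with `a_n ≤ C n²`, and move its elements to the right by
independent random amounts: `A' = {a_n + Z_n}`. `rep A' n` is the number of ordered pairs of
elements of `A'` with sum `n`.

1. Let `k ≥ 1`. If for every `z ≤ 1728 (C + 1) k²` the probability of `Z_i = z` is at least
   `i ^ (-1 / (8 k))` for all large `i`, then almost surely `r_{A'}(n) ≥ 2 k` for infinitely many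
   `n`. For example, if all the `Z_i` are uniformly distributed on `{0, ..., m}`, then
   `limsup r_{A'}(n) ≥ c √m` almost surely, where `c > 0` depends only on `C`.
2. If for every fixed `z` the probability of `Z_i = z` is at least `i ^ (-o(1))`, then `r_{A'}` is
   almost surely unbounded. This condition holds for independent identically distributed `Z_i` with
   arbitrarily small tails if all natural numbers have positive probability, for `Z_i` uniformly
   distributed on `{0, ..., m_i}`, where `m_i → ∞` arbitrarily slowly (`m_i = i ^ o(1)`), and also if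
   the probability of `Z_i ≠ 0` tends to zero (not faster than `i ^ (-o(1))`).

So every counterexample to the strong form of the Erdős–Turán conjecture is destroyed, with
probability one, by independent perturbations of arbitrarily slowly growing size which concern only
a proportion `o(1)` of the elements.

Method: for every `k` some window of length `O_C(k²)` contains the sums of `k` disjoint pairs of
elements of `A` (a counting argument which distinguishes clusters from matchings), and there are
`≫_k I` disjoint possibilities among the elements `a_i`, `I ≤ i < 3 I`.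
-/

set_option autoImplicit false

open Filter MeasureTheory ProbabilityTheory

namespace Pool.Agent.Results.MP_12a1af_nt.RandomPerturbations

/-- `r_A(n)`: the number of ordered pairs of elements of `A` with sum `n` -/
noncomputable def rep (A : Set ℕ) (n : ℕ) : ℕ :=
  {p : ℕ × ℕ | p.1 ∈ A ∧ p.2 ∈ A ∧ p.1 + p.2 = n}.ncard

/-- the `i`-th element of the infinite set `A`, counting from `i = 0` -/
noncomputable def elt (A : Set ℕ) (i : ℕ) : ℕ := Nat.nth (fun a => a ∈ A) i

/-- the perturbed set: the `i`-th element of `A` is replaced by itself plus `z i` -/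
def moved (A : Set ℕ) (z : ℕ → ℕ) : Set ℕ := {x | ∃ i : ℕ, x = elt A i + z i}

/-- `A` is any set with `a_n ≤ C n²` (`a_{i+1} = elt A i`); the `Z i` are independent. -/
theorem result (A : Set ℕ) (hA : A.Infinite) (C : ℕ) (hC : ∀ i : ℕ, elt A i ≤ C * (i + 1) ^ 2)
    (Ω : Type) [MeasurableSpace Ω] (μ : Measure Ω) [IsProbabilityMeasure μ]
    (Z : ℕ → Ω → ℕ) (hZ : ∀ i, Measurable (Z i)) (hind : iIndepFun Z μ) :
    -- 1. perturbations with values in a finite set
    (∀ k : ℕ, 1 ≤ k →
      (∀ z ≤ 1728 * (C + 1) * k ^ 2, ∀ᶠ i : ℕ in atTop,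
        (i : ℝ) ^ (-(1 / (8 * k) : ℝ)) ≤ μ.real {ω | Z i ω = z}) →
      ∀ᵐ ω ∂μ, ∀ m : ℕ, ∃ n ≥ m, 2 * k ≤ rep (moved A fun i => Z i ω) n) ∧
    -- 2. unbounded representation function
    ((∀ z : ℕ, ∀ ε : ℝ, 0 < ε → ∀ᶠ i : ℕ in atTop, (i : ℝ) ^ (-ε) ≤ μ.real {ω | Z i ω = z}) →
      ∀ᵐ ω ∂μ, ∀ K : ℕ, ∃ n, K < rep (moved A fun i => Z i ω) n) := by
  have hset : ∀ z : ℕ → ℕ, moved A z = Set.range fun i => Nat.nth (fun a => a ∈ A) i + z i := by
    intro z
    ext x
    constructor
    · rintro ⟨i, rfl⟩
      exact ⟨i, rfl⟩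
    · rintro ⟨i, rfl⟩
      exact ⟨i, rfl⟩
  have hmono : StrictMono (Nat.nth (fun a => a ∈ A)) := Nat.nth_strictMono hA
  refine ⟨?_, ?_⟩
  · intro k hk hpr
    have h := Pool.Agent.Y940.NP.perturbed Z hZ hind _ hmono C hC k hk (by
      have : ∀ᶠ i : ℕ in atTop, ∀ z ∈ Finset.range (1728 * (C + 1) * k ^ 2 + 1),
          (i : ℝ) ^ (-(1 / (8 * k) : ℝ)) ≤ μ.real {ω | Z i ω = z} :=
        (Finset.eventually_all _).2 fun z hz => hpr z (by
          have := Finset.mem_range.1 hz
          omega)
      filter_upwards [this] with i hi z hz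
      exact hi z (Finset.mem_range.2 (by omega)))
    filter_upwards [h] with ω hω m
    rw [hset]
    obtain ⟨m₀, hm₀⟩ := eventually_atTop.1 hω
    obtain ⟨n, hn1, hn2⟩ := hm₀ (max m m₀) (le_max_right _ _)
    exact ⟨n, (le_max_left _ _).trans hn1, hn2⟩
  · intro hpr
    have h := Pool.Agent.Y940.NP.perturbed_unbounded Z hZ hind _ hmono C hC hpr
    filter_upwards [h] with ω hω K
    rw [hset]
    exact hω K

end Pool.Agent.Results.MP_12a1af_nt.RandomPerturbations
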