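import Pool.Agent.Y940.CT.Forms
import Pool.Agent.Y940.CT.Thresh

/-!
# The Erdős–Turán problem inside random sets

A random set `A = rset E ω = {n | ω ∈ E n}` of natural numbers is given by events `E n` with
`P(T ⊆ A) ≤ ∏_{n ∈ T} p n` for all finite `T` (`Sub μ E p`; equality with `p n = P(n ∈ A)` if the
events are independent). `rep B n` is the number of ordered pairs of elements of `B` with sum `n`, and
`count B N = |B ∩ [1, N]|`.

1. For all `K` there is a `C` such that in every random set and for all `c > 0`, almost surely, for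
   EVERY subset `B` with `rep B ≤ K` there are fewer than `c √N` elements `n ≤ N` of `B` with
   `p n ≤ c² / C`, for all large `N`.
2. If `p n → 0` (arbitrarily slowly), then almost surely every subset `B` of the random set with
   bounded representation function satisfies `|B ∩ [1, N]| = o(√N)`.
3. So almost surely no subset of the random set is a counterexample to one of the two questions.
4. If the events are independent and `p n ≥ n ^ (-1/8)` for large `n`, then almost surely the random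
   set is an asymptotic basis.
5. For independent events with arbitrary probabilities: if the mean number of the elements up to `N`
   is at least `c √N` and `rep A` is bounded with positive probability, then all level sets
   `{n | P(n ∈ A) ≥ ε}`, `ε ≤ ε₀`, are counterexamples to the second question.
6. The same for the first question: if `A` is an asymptotic basis with bounded `rep A` with positive
   probability, then so are all level sets with `ε ≤ ε₀`.
-/

set_option autoImplicit false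

namespace Pool.Agent.Results.MP_12a1af_nt.RelativeErdosTuran

open Filter Finset MeasureTheory ProbabilityTheory Pool.Agent.Y940.RS Pool.Agent.Y940.CT

universe u

theorem localisation (K : ℕ) : ∃ C : ℝ, 0 < C ∧ ∀ c : ℝ, 0 < c →
    ∀ (Ω : Type u) [MeasurableSpace Ω] (μ : Measure Ω) [IsProbabilityMeasure μ]
      (E : ℕ → Set Ω) (p : ℕ → ℝ), Sub μ E p →
      ∀ᵐ ω ∂μ, ∀ B : Set ℕ, B ⊆ rset E ω → (∀ s, rep B s ≤ K) →
        ∀ᶠ N : ℕ in atTop, count (B ∩ {n | p n ≤ c ^ 2 / C}) N < c * Real.sqrt N := by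
  classical
  obtain ⟨C₀, hC₀, hmain⟩ := ae_subsets K
  have hK0 : (0 : ℝ) ≤ K := Nat.cast_nonneg K
  refine ⟨9 * K + 1 + 4 * C₀ ^ 2, by positivity, ?_⟩
  intro c hc Ω _ μ _ E p hE
  set C : ℝ := 9 * K + 1 + 4 * C₀ ^ 2 with hC
  have hC0 : 0 < C := by positivity
  set ε : ℝ := c ^ 2 / C with hε
  have hε0 : 0 < ε := by positivity
  have hsqrtlim : Tendsto (fun N : ℕ => Real.sqrt N) atTop atTop :=
    Real.tendsto_sqrt_atTop.comp tendsto_natCast_atTop_atTop
  by_cases hbig : 1 / 3 < ε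
  · -- the trivial bound
    have h1 : 3 * (K : ℝ) < c ^ 2 := by
      rw [hε, lt_div_iff₀ hC0] at hbig
      nlinarith [sq_nonneg C₀]
    refine Eventually.of_forall fun ω B _ hK => ?_
    filter_upwards [eventually_ge_atTop 1] with N hN
    have hN1 : (1 : ℝ) ≤ N := by exact_mod_cast hN
    have h2 := count_le_sqrt (B := B ∩ {n | p n ≤ ε})
      (fun s => (rep_mono Set.inter_subset_left s).trans (hK s)) N
    refine lt_of_le_of_lt h2 ?_
    have h3 : c * Real.sqrt N = Real.sqrt (c ^ 2 * N) := by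
      rw [Real.sqrt_mul (by positivity), Real.sqrt_sq hc.le]
    rw [h3]
    refine Real.sqrt_lt_sqrt (by positivity) ?_
    nlinarith
  · push Not at hbig
    set E' : ℕ → Set Ω := fun n => if p n ≤ ε then E n else ∅ with hE'
    set p' : ℕ → ℝ := fun n => if p n ≤ ε then p n else 0 with hp'
    have hSub : Sub μ E' p' := by
      refine ⟨fun n => ?_, fun T => ?_⟩
      · rw [hp']
        simp only
        split_ifs
        · exact hE.1 n
        · exact le_rfl
      · by_cases hall : ∀ n ∈ T, p n ≤ ε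
        · have h1 : ⋂ n ∈ T, E' n = ⋂ n ∈ T, E n := by
            refine Set.iInter₂_congr fun n hn => ?_
            rw [hE']
            simp only
            rw [if_pos (hall n hn)]
          have h2 : ∏ n ∈ T, p' n = ∏ n ∈ T, p n := by
            refine prod_congr rfl fun n hn => ?_
            rw [hp']
            simp only
            rw [if_pos (hall n hn)]
          rw [h1, h2]
          exact hE.2 T
        · push Not at hall
          obtain ⟨n, hn, hn2⟩ := hall
          have h1 : ⋂ n ∈ T, E' n = ∅ := by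
            rw [Set.eq_empty_iff_forall_notMem]
            intro ω hω
            rw [Set.mem_iInter₂] at hω
            have h3 := hω n hn
            rw [hE'] at h3
            simp only at h3
            rw [if_neg (not_le.2 hn2)] at h3
            exact h3
          have h2 : ∏ n ∈ T, p' n = 0 := by
            refine prod_eq_zero hn ?_
            rw [hp']
            simp only
            rw [if_neg (not_le.2 hn2)]
          rw [h1, h2]
          simp
    have hlim : Tendsto (fun N : ℕ => (N : ℝ) ^ (-(1 / (4 * ((K : ℝ) + 1))))) atTop (nhds 0) :=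
      (tendsto_rpow_neg_atTop (by positivity)).comp tendsto_natCast_atTop_atTop
    have h1 := hmain μ E' p' hSub (fun _ => 0) (fun _ => ε) (by
      filter_upwards [hlim.eventually (Iic_mem_nhds hε0)] with N hN
      refine ⟨hN, hbig, fun n _ _ => ?_⟩
      rw [hp']
      simp only
      split_ifs with h
      · exact h
      · exact hε0.le)
    filter_upwards [h1] with ω hω B hB hK
    have h2 := hω (B ∩ {n | p n ≤ ε}) (by
      rintro n ⟨hn1, hn2⟩
      have h2 : ω ∈ E n := hB hn1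
      have h3 : p n ≤ ε := hn2
      change ω ∈ E' n
      rw [hE']
      simp only
      rw [if_pos h3]
      exact h2) (fun s => (rep_mono Set.inter_subset_left s).trans (hK s))
    filter_upwards [h2, hsqrtlim.eventually_gt_atTop (Real.sqrt K / (c / 2))] with N h3 h4
    rw [div_lt_iff₀ (by positivity)] at h4
    have h5 : C₀ * Real.sqrt (ε * N) ≤ c / 2 * Real.sqrt N := by
      rw [Real.sqrt_mul hε0.le, ← mul_assoc]
      refine mul_le_mul_of_nonneg_right ?_ (Real.sqrt_nonneg _)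
      have h6 : C₀ * Real.sqrt ε = Real.sqrt (C₀ ^ 2 * ε) := by
        rw [Real.sqrt_mul (by positivity), Real.sqrt_sq hC₀.le]
      rw [h6, Real.sqrt_le_left (by positivity), hε, ← mul_div_assoc, div_le_iff₀ hC0]
      have h7 : 4 * C₀ ^ 2 ≤ C := by
        rw [hC]
        linarith
      have h8 : 0 ≤ c ^ 2 := by positivity
      nlinarith
    have h9 : Real.sqrt (K * (2 * ((0 : ℕ) : ℝ) + 1)) = Real.sqrt K := by
      norm_num
    rw [h9] at h3
    linarith

theorem little_o {Ω : Type u} [MeasurableSpace Ω] {μ : Measure Ω} [IsProbabilityMeasure μ]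
    {E : ℕ → Set Ω} {p : ℕ → ℝ} (hE : Sub μ E p) (hp : Tendsto p atTop (nhds 0)) :
    ∀ᵐ ω ∂μ, ∀ B : Set ℕ, B ⊆ rset E ω → (∃ K, ∀ s, rep B s ≤ K) →
      Tendsto (fun N : ℕ => count B N / Real.sqrt N) atTop (nhds 0) := by
  have h1 : ∀ K j : ℕ, ∀ᵐ ω ∂μ, ∀ B : Set ℕ, B ⊆ rset E ω → (∀ s, rep B s ≤ K) →
      ∀ᶠ N : ℕ in atTop, count B N < 1 / ((j : ℝ) + 1) * Real.sqrt N := by
    intro K j
    obtain ⟨C, hC, hmain⟩ := ae_count K
    refine hmain μ E p hE (1 / ((j : ℝ) + 1)) (by positivity) ?_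
    exact (hp.eventually (Iio_mem_nhds (Real.exp_pos _))).mono fun n hn => le_of_lt hn
  have h2 : ∀ᵐ ω ∂μ, ∀ K j : ℕ, ∀ B : Set ℕ, B ⊆ rset E ω → (∀ s, rep B s ≤ K) →
      ∀ᶠ N : ℕ in atTop, count B N < 1 / ((j : ℝ) + 1) * Real.sqrt N :=
    ae_all_iff.2 fun K => ae_all_iff.2 fun j => h1 K j
  filter_upwards [h2] with ω hω B hB hK
  obtain ⟨K, hK⟩ := hK
  rw [tendsto_order]
  constructor
  · intro a ha
    refine Eventually.of_forall fun N => lt_of_lt_of_le ha ?_
    unfold count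
    positivity
  · intro a ha
    obtain ⟨j, hj⟩ := exists_nat_one_div_lt ha
    filter_upwards [hω K j B hB hK, eventually_gt_atTop 0] with N h3 h4
    have h5 : 0 < Real.sqrt N := Real.sqrt_pos.2 (by exact_mod_cast h4)
    rw [div_lt_iff₀ h5]
    exact h3.trans (mul_lt_mul_of_pos_right hj h5)

theorem not_little_o {B : Set ℕ} {c : ℝ} (hc : 0 < c)
    (h : ∀ᶠ N : ℕ in atTop, c * Real.sqrt N ≤ count B N)
    (h2 : Tendsto (fun N : ℕ => count B N / Real.sqrt N) atTop (nhds 0)) : False := by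
  obtain ⟨N, h3, h4, h5⟩ :=
    (h.and ((h2.eventually (Iio_mem_nhds hc)).and (eventually_gt_atTop 0))).exists
  have h6 : 0 < Real.sqrt N := Real.sqrt_pos.2 (by exact_mod_cast h5)
  have h7 : count B N / Real.sqrt N < c := h4
  rw [div_lt_iff₀ h6] at h7
  linarith

theorem pos_of_bounded {Ω : Type u} [MeasurableSpace Ω] {μ : Measure Ω} {E : ℕ → Set Ω}
    {P : Ω → Prop} (h : 0 < μ {ω | P ω ∧ ∃ K, ∀ s, rep (rset E ω) s ≤ K}) :
    ∃ K : ℕ, 1 ≤ K ∧ 0 < μ {ω | P ω ∧ ∀ s, rep (rset E ω) s < 2 * K} := by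
  by_contra hcon
  push Not at hcon
  have h1 : μ (⋃ K : ℕ, {ω | P ω ∧ ∀ s, rep (rset E ω) s < 2 * (K + 1)}) = 0 := by
    rw [measure_iUnion_null_iff]
    intro K
    exact nonpos_iff_eq_zero.1 (hcon (K + 1) (by omega))
  refine h.ne' (measure_mono_null ?_ h1)
  rintro ω ⟨hω, K, hK⟩
  rw [Set.mem_iUnion]
  exact ⟨K, hω, fun s => by have := hK s; omega⟩

/-- **The Erdős–Turán problem inside random sets.** -/
theorem result :
    -- 1. localisation at the level sets, in arbitrary random sets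
    (∀ K : ℕ, ∃ C : ℝ, 0 < C ∧ ∀ c : ℝ, 0 < c →
      ∀ (Ω : Type u) [MeasurableSpace Ω] (μ : Measure Ω) [IsProbabilityMeasure μ]
        (E : ℕ → Set Ω) (p : ℕ → ℝ), Sub μ E p →
        ∀ᵐ ω ∂μ, ∀ B : Set ℕ, B ⊆ rset E ω → (∀ s, rep B s ≤ K) →
          ∀ᶠ N : ℕ in atTop, count (B ∩ {n | p n ≤ c ^ 2 / C}) N < c * Real.sqrt N) ∧
    -- 2. probabilities which tend to zero: all subsets with bounded representation function
    (∀ (Ω : Type u) [MeasurableSpace Ω] (μ : Measure Ω) [IsProbabilityMeasure μ]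
      (E : ℕ → Set Ω) (p : ℕ → ℝ), Sub μ E p → Tendsto p atTop (nhds 0) →
      ∀ᵐ ω ∂μ, ∀ B : Set ℕ, B ⊆ rset E ω → (∃ K, ∀ s, rep B s ≤ K) →
        Tendsto (fun N : ℕ => count B N / Real.sqrt N) atTop (nhds 0)) ∧
    -- 3. no subset is a counterexample
    (∀ (Ω : Type u) [MeasurableSpace Ω] (μ : Measure Ω) [IsProbabilityMeasure μ]
      (E : ℕ → Set Ω) (p : ℕ → ℝ), Sub μ E p → Tendsto p atTop (nhds 0) →
      ∀ᵐ ω ∂μ, ∀ B : Set ℕ, B ⊆ rset E ω →
        ((B.Infinite ∧ ∃ C : ℕ, ∀ n ≥ 1, Nat.nth (fun a => a ∈ B) (n - 1) ≤ C * n ^ 2) ∨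
          ∀ᶠ n in atTop, 1 ≤ rep B n) → ∀ K, ∃ n, K < rep B n) ∧
    -- 4. the random set itself may be an asymptotic basis
    (∀ (Ω : Type u) [MeasurableSpace Ω] (μ : Measure Ω) [IsProbabilityMeasure μ]
      (E : ℕ → Set Ω), (∀ n, MeasurableSet (E n)) → iIndepSet E μ →
      (∀ᶠ n : ℕ in atTop, (n : ℝ) ^ (-(1 / 8 : ℝ)) ≤ μ.real (E n)) →
      Sub μ E (fun n => μ.real (E n)) ∧ ∀ᵐ ω ∂μ, ∀ᶠ n in atTop, 1 ≤ rep (rset E ω) n) ∧
    -- 5. random counterexamples to the second question are deterministic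
    (∀ (Ω : Type u) [MeasurableSpace Ω] (μ : Measure Ω) [IsProbabilityMeasure μ]
      (E : ℕ → Set Ω), (∀ n, MeasurableSet (E n)) → iIndepSet E μ → ∀ c : ℝ, 0 < c →
      (∀ᶠ N : ℕ in atTop, c * Real.sqrt N ≤ ∑ n ∈ Icc 1 N, μ.real (E n)) →
      0 < μ {ω | ∃ K, ∀ s, rep (rset E ω) s ≤ K} →
      ∃ ε₀ : ℝ, 0 < ε₀ ∧ ∀ ε : ℝ, 0 < ε → ε ≤ ε₀ →
        (∃ K, ∀ s, rep {n | ε ≤ μ.real (E n)} s ≤ K) ∧
        ∀ᶠ N : ℕ in atTop, c / 2 * Real.sqrt N ≤ count {n | ε ≤ μ.real (E n)} N) ∧
    -- 6. random counterexamples to the first question are deterministic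
    (∀ (Ω : Type u) [MeasurableSpace Ω] (μ : Measure Ω) [IsProbabilityMeasure μ]
      (E : ℕ → Set Ω), (∀ n, MeasurableSet (E n)) → iIndepSet E μ →
      0 < μ {ω | (∀ᶠ n in atTop, 1 ≤ rep (rset E ω) n) ∧ ∃ K, ∀ s, rep (rset E ω) s ≤ K} →
      ∃ ε₀ : ℝ, 0 < ε₀ ∧ ∀ ε : ℝ, 0 < ε → ε ≤ ε₀ →
        (∀ᶠ n in atTop, 1 ≤ rep {n | ε ≤ μ.real (E n)} n) ∧
        ∃ K, ∀ s, rep {n | ε ≤ μ.real (E n)} s ≤ K) := by
  refine ⟨localisation, fun Ω _ μ _ E p hE hp => little_o hE hp, ?_, ?_, ?_, ?_⟩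
  · intro Ω _ μ _ E p hE hp
    filter_upwards [little_o hE hp] with ω hω B hB hform K
    by_contra hcon
    push Not at hcon
    have h1 := hω B hB ⟨K, hcon⟩
    rcases hform with ⟨hinf, C, hC⟩ | hbas
    · obtain ⟨c, hc, h2⟩ := q2_thick B hinf C hC
      exact not_little_o hc h2 h1
    · obtain ⟨c, hc, h2⟩ := basis_thick B hbas
      exact not_little_o hc h2 h1
  · intro Ω _ μ _ E hm h hp
    refine ⟨⟨fun n => measureReal_nonneg, fun T => ?_⟩, ae_basis hm h hp⟩
    exact ((KW.of_indep hm h T.card).2 T le_rfl).le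
  · intro Ω _ μ _ E hm h c hc hsum hpos
    obtain ⟨K, hK, hpos'⟩ := pos_of_bounded (P := fun _ => True) (E := E) (μ := μ)
      (by simpa using hpos)
    have hpos2 : 0 < μ.real {ω | ∀ s, rep (rset E ω) s < 2 * K} := by
      rw [measureReal_def, ENNReal.toReal_pos_iff]
      exact ⟨by simpa using hpos', measure_lt_top _ _⟩
    obtain ⟨H, _, hH⟩ := mean_bound hK (KW.of_indep hm h _) hpos2
    obtain ⟨ε₀, hε₀, hmain⟩ := level_thick hK (KW.of_indep hm h _) hpos2 hc
    refine ⟨ε₀, hε₀, fun ε hε hεle => ⟨level_bounded (fun n => measureReal_nonneg) hH hε, ?_⟩⟩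
    filter_upwards [hmain ε hε hεle, hsum] with N h1 h2
    exact h1 h2
  · intro Ω _ μ _ E hm h hpos
    obtain ⟨K, hK, hpos'⟩ := pos_of_bounded hpos
    have hpos2 : 0 < μ.real {ω | ∀ s, rep (rset E ω) s < 2 * K} := by
      rw [measureReal_def, ENNReal.toReal_pos_iff]
      refine ⟨hpos'.trans_le (measure_mono ?_), measure_lt_top _ _⟩
      rintro ω ⟨_, hω⟩
      exact hω
    obtain ⟨H, _, hH⟩ := mean_bound hK (KW.of_indep hm h _) hpos2
    obtain ⟨ε₀, hε₀, hmain⟩ := level_basis hm h hK hpos'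
    exact ⟨ε₀, hε₀, fun ε hε hεle => ⟨hmain ε hε hεle,
      level_bounded (fun n => measureReal_nonneg) hH hε⟩⟩

end Pool.Agent.Results.MP_12a1af_nt.RelativeErdosTuran
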